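import Pool.Agent.H13.DEV.Targets
import Pool.Agent.H12.QC.I4

/-!
# MP_63b6b1_nt, row EIPL: the place induced by an embedding in a completion
-/

set_option autoImplicit false

namespace Pool.Agent.H46.N6E

open Polynomial NumberField IsDedekindDomain Pool.Agent.H32.QC Pool.Agent.H34.N6
open Pool.Agent.H13.DEV

theorem mem_under {k L : Type} [Field k] [NumberField k] [Field L] [NumberField L] [Algebra k L]
    (w : FPl L) (a : 𝓞 k) :
    a ∈ (w.under (𝓞 k)).asIdeal ↔ algebraMap (𝓞 k) (𝓞 L) a ∈ w.asIdeal := Iff.rfl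

theorem pf_IPL : T_IPL := by
  intro k K L _ _ _ _ _ _ _ _ ws f hf
  obtain ⟨h, hc, hh⟩ := Pool.Agent.H12.QC.exists_indHom ws f
  refine ⟨Pool.Agent.H12.QC.indPl ws f, h, hc, hh, ?_⟩
  apply HeightOneSpectrum.ext
  ext a
  rw [mem_under, mem_under]
  have h1 : algebraMap (𝓞 k) (𝓞 K) a ∈ (Pool.Agent.H12.QC.indPl ws f).asIdeal ↔
      Valued.v (f (algebraMap (𝓞 K) K (algebraMap (𝓞 k) (𝓞 K) a))) < 1 :=
    Pool.Agent.H12.QC.mem_vIdeal_one ws f _
  have e1 : algebraMap (𝓞 K) K (algebraMap (𝓞 k) (𝓞 K) a) = algebraMap k K (a : k) := rfl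
  have e2 : algebraMap k L (a : k) = algebraMap (𝓞 L) L (algebraMap (𝓞 k) (𝓞 L) a) := rfl
  rw [h1, e1, hf]
  show Valued.v (ic ws (algebraMap k L (a : k))) < 1 ↔ _
  rw [Pool.Agent.H12.QC.val_ic, e2, HeightOneSpectrum.valuation_lt_one_iff_mem]

end Pool.Agent.H46.N6E
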