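import Pool.Agent.H13.DEV.Targets
import Pool.Agent.H34.N6.Main2

/-!
# MP_63b6b1_nt, row EPRI: the auxiliary prime number
-/

set_option autoImplicit false

namespace Pool.Agent.H46.N6E

open Polynomial NumberField IsDedekindDomain Pool.Agent.H32.QC Pool.Agent.H34.N6
open Pool.Agent.H13.DEV

/-- the norm of a place -/
noncomputable def nm {k : Type} [Field k] [NumberField k] (v : Pl k) : ℕ :=
  match v with
  | .inl v => Ideal.absNorm v.asIdeal
  | .inr _ => 0

theorem pf_PRI (hSPP : Pool.Agent.H34.N6.T_SPP) : T_PRI := by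
  intro k _ _ P D S hP hD
  obtain ⟨p, hp, hn, hs⟩ := hSPP k P D hP hD (∑ v ∈ S, nm v)
  refine ⟨p, hp, ?_, ?_⟩
  · intro v hv hmem
    have h1 : nm (Sum.inl v) < p :=
      (Finset.single_le_sum (f := nm) (fun _ _ => Nat.zero_le _) hv).trans_lt hn
    have h2 : Ideal.absNorm v.asIdeal < p := h1
    have h3 : Ideal.absNorm v.asIdeal ≠ 0 := by
      rw [Ne, Ideal.absNorm_eq_zero_iff]
      exact v.ne_bot
    have h4 : Nat.Coprime p (Ideal.absNorm v.asIdeal) :=
      (Nat.Prime.coprime_iff_not_dvd hp).2 fun hd => by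
        have := Nat.le_of_dvd (Nat.pos_of_ne_zero h3) hd
        omega
    have h5 : IsCoprime ((p : ℕ) : ℤ) ((Ideal.absNorm v.asIdeal : ℕ) : ℤ) :=
      Nat.isCoprime_iff_coprime.2 h4
    obtain ⟨a, b, hab⟩ := h5.map (Int.castRingHom (𝓞 k))
    have h6 : (1 : 𝓞 k) ∈ v.asIdeal := by
      rw [← hab]
      refine Ideal.add_mem _ (Ideal.mul_mem_left _ _ ?_) (Ideal.mul_mem_left _ _ ?_)
      · simpa using hmem
      · simpa using Ideal.absNorm_mem v.asIdeal
    exact (Ideal.ne_top_iff_one _).1 v.isPrime.ne_top h6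
  · intro K _ _ _ w hw
    exact hs K w hw

end Pool.Agent.H46.N6E
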