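import Pool.Agent.H13.DEV.Targets
import Pool.Agent.H34.N6.LibC

/-!
# MP_63b6b1_nt, row ESTP: the conditions at the auxiliary place are open
-/

set_option autoImplicit false

namespace Pool.Agent.H46.N6E

open Polynomial NumberField IsDedekindDomain Pool.Agent.H32.QC Pool.Agent.H34.N6
open Pool.Agent.H13.DEV

theorem sum_lt {F ι : Type} [NormedField F] [IsUltrametricDist F] (s : Finset ι) (f : ι → F)
    {b : ℝ} (hb : 0 < b) (h : ∀ i ∈ s, ‖f i‖ < b) : ‖∑ i ∈ s, f i‖ < b := by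
  classical
  induction s using Finset.induction_on with
  | empty => simpa using hb
  | insert a s ha ih =>
    rw [Finset.sum_insert ha]
    refine (IsUltrametricDist.norm_add_le_max _ _).trans_lt (max_lt ?_ ?_)
    · exact h a (Finset.mem_insert_self a s)
    · exact ih fun i hi => h i (Finset.mem_insert_of_mem hi)

theorem ev_eq {k L : Type} [Field k] [NumberField k] [Field L] [NumberField L] [Algebra k L]
    (w : FPl L) (e : L) (Q : k[X]) :
    ic w (aeval e Q) = ∑ i ∈ Finset.range (Q.natDegree + 1), kc k w (Q.coeff i) * (ic w e) ^ i := by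
  rw [aeval_eq_sum_range, map_sum]
  refine Finset.sum_congr rfl fun i _ => ?_
  rw [Algebra.smul_def, map_mul, map_pow]
  rfl

theorem ev_lt {k L : Type} [Field k] [NumberField k] [Field L] [NumberField L] [Algebra k L]
    (w : FPl L) {e : L} (he : ‖ic w e‖ ≤ 1) (Q : k[X]) {b : ℝ} (hb : 0 < b)
    (h : ∀ i, ‖kc k w (Q.coeff i)‖ < b) : ‖ic w (aeval e Q)‖ < b := by
  rw [ev_eq]
  refine sum_lt _ _ hb fun i _ => ?_
  rw [norm_mul, norm_pow]
  have h1 : ‖ic w e‖ ^ i ≤ 1 := pow_le_one₀ (norm_nonneg _) he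
  calc ‖kc k w (Q.coeff i)‖ * ‖ic w e‖ ^ i ≤ ‖kc k w (Q.coeff i)‖ * 1 := by gcongr
    _ < b := by rw [mul_one]; exact h i

theorem int_root {F : Type} [NormedField F] [IsUltrametricDist F] (n : ℕ) (c : ℕ → F) (E : F)
    (hc : ∀ i < n, ‖c i‖ ≤ 1) (h : E ^ n + ∑ i ∈ Finset.range n, c i * E ^ i = 0) : ‖E‖ ≤ 1 := by
  by_contra hE
  push Not at hE
  have h1 : ‖∑ i ∈ Finset.range n, c i * E ^ i‖ < ‖E‖ ^ n := by
    refine sum_lt _ _ (by positivity) fun i hi => ?_
    rw [Finset.mem_range] at hi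
    rw [norm_mul, norm_pow]
    calc ‖c i‖ * ‖E‖ ^ i ≤ 1 * ‖E‖ ^ i := by gcongr; exact hc i hi
      _ = ‖E‖ ^ i := one_mul _
      _ < ‖E‖ ^ n := pow_lt_pow_right₀ hE hi
  have h2 : E ^ n = -∑ i ∈ Finset.range n, c i * E ^ i := eq_neg_of_add_eq_zero_left h
  rw [← norm_pow, h2, norm_neg] at h1
  exact lt_irrefl _ h1

theorem int_e {k L : Type} [Field k] [NumberField k] [Field L] [NumberField L] [Algebra k L]
    (P : k[X]) (e : L) (w : FPl L) (hP : P.Monic) (hI : ∀ i, ‖kc k w (P.coeff i)‖ ≤ 1)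
    (he : aeval e P = 0) : ‖ic w e‖ ≤ 1 := by
  refine int_root P.natDegree (fun i => kc k w (P.coeff i)) (ic w e) (fun i _ => hI i) ?_
  have h := ev_eq w e P
  rw [he, map_zero, Finset.sum_range_succ, hP.coeff_natDegree, map_one, one_mul] at h
  rw [add_comm]
  exact h.symm

theorem add_eq {F : Type} [NormedField F] [IsUltrametricDist F] {x y : F} (h : ‖y‖ < ‖x‖) :
    ‖x + y‖ = ‖x‖ := by
  rw [IsUltrametricDist.norm_add_eq_max_of_norm_ne_norm h.ne', max_eq_left h.le]

theorem pf_STP (hBEL : T_BEL) : T_STP := by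
  intro k L _ _ _ _ _ P e ws N G hPm hPI he hG
  obtain ⟨p, hp0, hp1⟩ := exists_small ws
  set γ := ‖ic ws (aeval e G)‖ with hγ
  have hγ0 : 0 < γ := (norm_pos_iff.2 hp0).trans_le (hG.mx p hp1)
  obtain ⟨ε', hε', hε⟩ := (hBEL k L ws).2.2 γ hγ0
  refine ⟨min ε' 1, lt_min hε' one_pos, fun G' hm hd hcl => ?_⟩
  have hcl1 : ∀ i, ‖ic (ws.under (𝓞 k)) ((G' - G).coeff i)‖ < min ε' 1 := hcl
  have hcle : ∀ i, ‖kc k ws ((G' - G).coeff i)‖ < γ := fun i =>
    hε _ ((hcl1 i).trans_le (min_le_left _ _))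
  have hclo : ∀ w : FPl L, w.under (𝓞 k) = ws.under (𝓞 k) → ∀ i,
      ‖kc k w ((G' - G).coeff i)‖ < 1 := by
    intro w hw i
    rw [((hBEL k L w).1 _).2, hw]
    exact (hcl1 i).trans_le (min_le_right _ _)
  have heI : ∀ w : FPl L, w.under (𝓞 k) = ws.under (𝓞 k) → ‖ic w e‖ ≤ 1 := by
    intro w hw
    refine int_e P e w hPm (fun i => ?_) he
    rw [((hBEL k L w).1 _).1, hw]
    exact hPI i
  have hsum : ∀ w : FPl L, ic w (aeval e G') = ic w (aeval e G) + ic w (aeval e (G' - G)) := by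
    intro w
    rw [← map_add, ← map_add, add_sub_cancel]
  have hws : ‖ic ws (aeval e G')‖ = γ := by
    rw [hsum]
    exact add_eq (ev_lt ws (heI ws rfl) _ hγ0 hcle)
  refine ⟨hm, hd, ?_, ?_, ?_, ?_, ?_⟩
  · intro i
    have h1 : G'.coeff i = G.coeff i + (G' - G).coeff i := by
      rw [coeff_sub]
      ring
    rw [h1, map_add]
    refine (IsUltrametricDist.norm_add_le_max _ _).trans (max_le (hG.int i) ?_)
    exact ((hcl1 i).trans_le (min_le_right _ _)).le
  · rw [hws]
    exact hG.lt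
  · intro x hx
    rw [hws]
    exact hG.mx x hx
  · have h1 : ic ws (aeval e (derivative G')) = ic ws (aeval e (derivative G)) +
        ic ws (aeval e (derivative (G' - G))) := by
      rw [← map_add, ← map_add, ← derivative_add, add_sub_cancel]
    have h2 : ‖ic ws (aeval e (derivative (G' - G)))‖ < 1 := by
      refine ev_lt ws (heI ws rfl) _ one_pos fun i => ?_
      rw [coeff_derivative, map_mul, norm_mul]
      have h3 : ‖kc k ws ((i : k) + 1)‖ ≤ 1 := by
        have h4 : kc k ws ((i : k) + 1) = (((i + 1 : ℕ)) : ws.adicCompletion L) := by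
          push_cast
          rw [map_add, map_natCast, map_one]
        rw [h4]
        exact IsUltrametricDist.norm_natCast_le_one _ _
      calc ‖kc k ws ((G' - G).coeff (i + 1))‖ * ‖kc k ws ((i : k) + 1)‖ ≤
          ‖kc k ws ((G' - G).coeff (i + 1))‖ * 1 := by gcongr
        _ < 1 := by rw [mul_one]; exact hclo ws rfl _
    rw [h1, add_eq (by rw [hG.der]; exact h2), hG.der]
  · intro w hw hne
    rw [hsum, add_eq (by rw [hG.oth w hw hne]; exact ev_lt w (heI w hw) _ one_pos (hclo w hw)),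
      hG.oth w hw hne]

end Pool.Agent.H46.N6E
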